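import Pool.Agent.K9h1.CW.Bound
import Pool.Agent.H235R2.QLP.Gain

/-!
K9h1/CW (helper1, MP_0430e4_lc): achievable triples (mass, energy, gain) of sites.
-/

open Finset

namespace Pool.Agent.K9h1.CW

open Pool.Agent.H390R2.LP Pool.Agent.H235R2.QLP Pool.Agent.H703R2.LP

section formula

variable {Ω X : Type} [Fintype Ω] [DecidableEq Ω] [DecidableEq X]

/-- the masses of the positions -/
lemma P_formula (s : Site Ω X) (x : X) :
    s.P x = ∑ a, s.lam a * ∑ ω, if s.pos ω = x then s.u a ω ^ 2 else 0 := by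
  unfold Site.P
  simp_rw [site_g_eq]
  rw [Finset.sum_comm]
  refine Finset.sum_congr rfl fun a _ => ?_
  rw [← Finset.mul_sum]
  congr 1
  obtain ⟨v, hv⟩ : ∃ v : Ω → ℝ, v = fun ω => if s.pos ω = x then s.u a ω else 0 := ⟨_, rfl⟩
  have h1 := site_parseval s v
  have h2 : ∑ ω, v ω ^ 2 = ∑ ω, if s.pos ω = x then s.u a ω ^ 2 else 0 := by
    rw [hv]
    refine Finset.sum_congr rfl fun ω _ => ?_
    simp only
    split_ifs <;> simp
  rw [← h2, ← h1, Finset.sum_filter]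
  refine Finset.sum_congr rfl fun c _ => ?_
  split_ifs with hc
  · congr 1
    refine Finset.sum_congr rfl fun ω _ => ?_
    rw [hv]
    simp only
    split_ifs with hω
    · rfl
    · rw [s.w_supp c ω (by rw [hc]; exact hω), mul_zero, mul_zero]
  · symm
    have : ∑ ω, v ω * s.w c ω = 0 := by
      refine Finset.sum_eq_zero fun ω _ => ?_
      rw [hv]
      simp only
      split_ifs with hω
      · rw [s.w_supp c ω (by rw [hω]; exact fun h => hc h.symm), mul_zero]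
      · rw [zero_mul]
    rw [this]
    norm_num

end formula

lemma P_mix {Ω₁ Ω₂ X : Type} [Fintype Ω₁] [DecidableEq Ω₁] [Fintype Ω₂] [DecidableEq Ω₂]
    [DecidableEq X] (s₁ : Site Ω₁ X) (s₂ : Site Ω₂ X) (r : ℝ) (h0 : 0 ≤ r) (h1 : r ≤ 1) (x : X) :
    (mix s₁ s₂ r h0 h1).P x = r * s₁.P x + (1 - r) * s₂.P x := by
  rw [P_formula, P_formula, P_formula]
  simp only [mix, Fintype.sum_sum_type, Sum.elim_inl, Sum.elim_inr, dsum, ne_eq,
    OfNat.ofNat_ne_zero, not_false_eq_true, zero_pow, ite_self, Finset.sum_const_zero, add_zero,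
    zero_add]
  rw [Finset.mul_sum, Finset.mul_sum]
  congr 1
  · exact Finset.sum_congr rfl fun a _ => by ring
  · exact Finset.sum_congr rfl fun a _ => by ring

lemma P_triv {X : Type} [DecidableEq X] (x y : X) : (triv x).P y = if x = y then 1 else 0 := by
  rw [P_formula]
  simp [triv]

lemma P_base {q : ℕ} (d : Dat q) (hd : IsDat d) (x : Fin q) : (base d hd).P x = pp d x := by
  rw [P_formula]
  simp [base, pp]

lemma P_twist {q : ℕ} (d : Dat q) (hd : IsDat d) (t : ℝ) (h0 : 0 ≤ t) (h1 : t ≤ 1)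
    (τ : Equiv.Perm (Fin q)) (x : Fin q) :
    (twist d hd t h0 h1 τ).P x = (1 - t) * pp d x + t * pp d (τ.symm x) := by
  have hs : √(1 - t) * √(1 - t) = 1 - t := Real.mul_self_sqrt (by linarith)
  have hs2 : √t * √t = t := Real.mul_self_sqrt h0
  rw [P_formula, Fintype.sum_prod_type]
  simp only [Fintype.sum_prod_type, Fintype.sum_bool]
  have h5 : ∀ a : Fin q, (twist d hd t h0 h1 τ).lam (a, true) = 0 := fun a => rfl
  have h6 : ∀ a : Fin q, (twist d hd t h0 h1 τ).lam (a, false) = d.2 a := fun a => rfl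
  simp only [h5, h6, zero_mul, zero_add]
  unfold pp
  rw [Finset.mul_sum, Finset.mul_sum, ← Finset.sum_add_distrib]
  refine Finset.sum_congr rfl fun a _ => ?_
  rw [Finset.sum_add_distrib]
  simp only [twist, tu]
  have h7 : ∀ ω, (τ ω = x) ↔ (ω = τ.symm x) := fun ω => by
    constructor
    · rintro rfl; simp
    · rintro rfl; simp
  simp_rw [h7]
  rw [Finset.sum_ite_eq' univ (τ.symm x) (fun ω => (√t * d.1 a ω) ^ 2),
    Finset.sum_ite_eq' univ x (fun ω => (√(1 - t) * d.1 a ω) ^ 2)]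
  simp only [Finset.mem_univ, if_true]
  have e1 : (√t * d.1 a (τ.symm x)) ^ 2 = t * d.1 a (τ.symm x) ^ 2 := by
    rw [mul_pow, sq (√t), hs2]
  have e2 : (√(1 - t) * d.1 a x) ^ 2 = (1 - t) * d.1 a x ^ 2 := by
    rw [mul_pow, sq (√(1 - t)), hs]
  rw [e1, e2]
  ring

/-- `(p, e, c)` is achieved: some binary site has mass `p` at `1`, energy at most `e` and gain at
least `c` -/
def Ach (p e c : ℝ) : Prop :=
  ∃ (Ω : Type) (_ : Fintype Ω) (_ : DecidableEq Ω) (s : Site Ω (Fin 2)),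
    s.P 1 = p ∧ EH s ≤ e ∧ c ≤ cc s

lemma Ach.mono {p e c e' c' : ℝ} (h : Ach p e c) (he : e ≤ e') (hc : c' ≤ c) : Ach p e' c' := by
  obtain ⟨Ω, i1, i2, s, h1, h2, h3⟩ := h
  exact ⟨Ω, i1, i2, s, h1, h2.trans he, hc.trans h3⟩

lemma Ach.mix {p₁ e₁ c₁ p₂ e₂ c₂ r : ℝ} (h₁ : Ach p₁ e₁ c₁) (h₂ : Ach p₂ e₂ c₂) (h0 : 0 ≤ r)
    (h1 : r ≤ 1) : Ach (r * p₁ + (1 - r) * p₂) (r * e₁ + (1 - r) * e₂)
      (r * c₁ + (1 - r) * c₂) := by
  obtain ⟨Ω₁, i1, i2, s₁, a1, a2, a3⟩ := h₁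
  obtain ⟨Ω₂, j1, j2, s₂, b1, b2, b3⟩ := h₂
  refine ⟨Ω₁ ⊕ Ω₂, inferInstance, inferInstance, Pool.Agent.H235R2.QLP.mix s₁ s₂ r h0 h1, ?_, ?_, ?_⟩
  · rw [P_mix, a1, b1]
  · rw [EH_mix]
    have h1' : 0 ≤ 1 - r := by linarith
    exact add_le_add (mul_le_mul_of_nonneg_left a2 h0) (mul_le_mul_of_nonneg_left b2 h1')
  · rw [cc_mix]
    have h1' : 0 ≤ 1 - r := by linarith
    exact add_le_add (mul_le_mul_of_nonneg_left a3 h0) (mul_le_mul_of_nonneg_left b3 h1')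

lemma ach_triv {p : ℝ} (h0 : 0 ≤ p) (h1 : p ≤ 1) : Ach p 0 0 := by
  have a1 : Ach 1 0 0 := ⟨Unit, inferInstance, inferInstance, triv 1, by rw [P_triv]; simp,
    by rw [EH_triv], by rw [cc_triv]⟩
  have a0 : Ach 0 0 0 := ⟨Unit, inferInstance, inferInstance, triv 0, by rw [P_triv]; simp,
    by rw [EH_triv], by rw [cc_triv]⟩
  have := a1.mix a0 h0 h1
  simpa using this

/-! ### two by two density matrices -/

/-- eigenvectors at the angle with squared cosine `k`, eigenvalues `l` and `1 - l` -/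
noncomputable def dat (l k : ℝ) : Dat 2 :=
  (fun a x => if a = 0 then (if x = 0 then √k else √(1 - k)) else
    (if x = 0 then -√(1 - k) else √k), fun a => if a = 0 then l else 1 - l)

variable {l k : ℝ}

lemma isDat (hl0 : 0 ≤ l) (hl1 : l ≤ 1) (hk0 : 0 ≤ k) (hk1 : k ≤ 1) : IsDat (dat l k) := by
  have h1 : √k * √k = k := Real.mul_self_sqrt hk0
  have h2 : √(1 - k) * √(1 - k) = 1 - k := Real.mul_self_sqrt (by linarith)
  refine ⟨?_, ?_, ?_⟩
  · intro a b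
    rw [Fin.sum_univ_two]
    fin_cases a <;> fin_cases b
    · simp only [dat, Fin.zero_eta, Fin.isValue, if_true, one_ne_zero, if_false, h1, h2]
      ring
    · simp only [dat, Fin.zero_eta, Fin.isValue, if_true, one_ne_zero, if_false, Fin.mk_one]
      rw [if_neg zero_ne_one]
      ring
    · simp only [dat, Fin.zero_eta, Fin.isValue, if_true, one_ne_zero, if_false, Fin.mk_one]
      ring
    · simp only [dat, Fin.isValue, if_true, one_ne_zero, if_false, Fin.mk_one]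
      rw [h1, neg_mul_neg, h2]
      ring
  · intro a
    fin_cases a
    · simpa [dat] using hl0
    · simpa [dat] using hl1
  · rw [Fin.sum_univ_two]
    simp [dat]

lemma pp_zero (hk0 : 0 ≤ k) (hk1 : k ≤ 1) : pp (dat l k) 0 = l * k + (1 - l) * (1 - k) := by
  unfold pp
  rw [Fin.sum_univ_two]
  simp only [dat, Fin.isValue, if_true, one_ne_zero, if_false, neg_sq]
  rw [Real.sq_sqrt hk0, Real.sq_sqrt (by linarith)]

lemma pp_one (hk0 : 0 ≤ k) (hk1 : k ≤ 1) : pp (dat l k) 1 = l * (1 - k) + (1 - l) * k := by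
  unfold pp
  rw [Fin.sum_univ_two]
  simp only [dat, Fin.isValue, if_true, one_ne_zero, if_false]
  rw [Real.sq_sqrt hk0, Real.sq_sqrt (by linarith)]

lemma rr_eq : rr (dat l k) 0 1 = (2 * l - 1) * (√k * √(1 - k)) := by
  unfold rr
  rw [Fin.sum_univ_two]
  simp only [dat, Fin.isValue, if_true, one_ne_zero, if_false]
  ring

lemma Dm_eq (hk0 : 0 ≤ k) (hk1 : k ≤ 1) : Dm (dat l k) 0 1 = l * (1 - l) := by
  unfold Dm
  rw [pp_zero hk0 hk1, pp_one hk0 hk1, rr_eq, mul_pow, mul_pow, Real.sq_sqrt hk0,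
    Real.sq_sqrt (by linarith)]
  ring

lemma C0_eq (hk0 : 0 ≤ k) (hk1 : k ≤ 1) :
    C0 (dat l k) = Real.binEntropy (l * (1 - k) + (1 - l) * k) - Real.binEntropy l := by
  unfold C0
  rw [Fin.sum_univ_two, Fin.sum_univ_two, pp_zero hk0 hk1, pp_one hk0 hk1]
  simp only [dat, Fin.isValue, if_true, one_ne_zero, if_false]
  rw [Real.binEntropy_eq_negMulLog_add_negMulLog_one_sub,
    Real.binEntropy_eq_negMulLog_add_negMulLog_one_sub,
    show 1 - (l * (1 - k) + (1 - l) * k) = l * k + (1 - l) * (1 - k) by ring]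
  ring

lemma E0_eq (hl0 : 0 ≤ l) (hl1 : l ≤ 1) (hk0 : 0 ≤ k) (hk1 : k ≤ 1) :
    E0 (dat l k) = 2 * (k * (1 - k)) * (1 - 2 * √(l * (1 - l))) := by
  have h1l : 0 ≤ 1 - l := by linarith
  unfold E0
  rw [Fin.sum_univ_two, Fin.sum_univ_two, Fin.sum_univ_two]
  simp only [dat, Fin.isValue, if_true, one_ne_zero, if_false, neg_sq]
  rw [Real.sq_sqrt hk0, Real.sq_sqrt (by linarith), Real.sqrt_mul hl0]
  have h1 : √l ^ 2 = l := Real.sq_sqrt hl0
  have h2 : √(1 - l) ^ 2 = 1 - l := Real.sq_sqrt h1l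
  linear_combination (-(k ^ 2 + (1 - k) ^ 2)) * h1 - (k ^ 2 + (1 - k) ^ 2) * h2

/-- the energy of the bound of McEliece, Rodemich, Rumsey and Welch for constant weight codes -/
noncomputable def EJ (w l : ℝ) : ℝ := 2 * (w * (1 - w) - l * (1 - l)) / (1 + 2 * √(l * (1 - l)))

/-- the angle -/
noncomputable def kJ (w l : ℝ) : ℝ := if l = 1 / 2 then 1 / 2 else (w - l) / (1 - 2 * l)

lemma kJ_mem {w l : ℝ} (hl1 : l ≤ 1 / 2) (h1 : l ≤ w) (h2 : w ≤ 1 - l) :
    0 ≤ kJ w l ∧ kJ w l ≤ 1 ∧ l * (1 - kJ w l) + (1 - l) * kJ w l = w := by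
  unfold kJ
  split_ifs with h
  · rw [h] at h1 h2 ⊢
    exact ⟨by norm_num, by norm_num, by linarith⟩
  · have h3 : 0 < 1 - 2 * l := by
      rcases hl1.lt_or_eq with h4 | h4
      · linarith
      · exact absurd h4 h
    refine ⟨div_nonneg (by linarith) h3.le, by rw [div_le_one h3]; linarith, ?_⟩
    have h4 : (w - l) / (1 - 2 * l) * (1 - 2 * l) = w - l := div_mul_cancel₀ _ h3.ne'
    linear_combination h4

lemma EJ_eq {w l : ℝ} (hl0 : 0 ≤ l) (hl1 : l ≤ 1 / 2) (h1 : l ≤ w) (h2 : w ≤ 1 - l) :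
    E0 (dat l (kJ w l)) = EJ w l := by
  obtain ⟨a1, a2, a3⟩ := kJ_mem hl1 h1 h2
  have hs0 : 0 ≤ l * (1 - l) := mul_nonneg hl0 (by linarith)
  rw [E0_eq hl0 (by linarith) a1 a2]
  unfold EJ
  obtain ⟨s, hs⟩ : ∃ s, s = √(l * (1 - l)) := ⟨_, rfl⟩
  have hs2 : s ^ 2 = l * (1 - l) := by rw [hs, Real.sq_sqrt hs0]
  have hsn : 0 ≤ s := by rw [hs]; exact Real.sqrt_nonneg _
  rw [← hs, eq_div_iff (by positivity), ← hs2]
  obtain ⟨K, hK⟩ : ∃ K, K = kJ w l := ⟨_, rfl⟩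
  rw [← hK] at a3 ⊢
  rw [← a3]
  linear_combination (2 - 8 * (K * (1 - K))) * hs2

/-- the pair of `w` and `l` is achieved -/
lemma ach_base {w l : ℝ} (hl0 : 0 ≤ l) (hl1 : l ≤ 1 / 2) (h1 : l ≤ w) (h2 : w ≤ 1 - l) :
    Ach w (EJ w l) (Real.binEntropy w - Real.binEntropy l) := by
  obtain ⟨a1, a2, a3⟩ := kJ_mem hl1 h1 h2
  have hd := isDat (l := l) hl0 (by linarith) a1 a2
  refine ⟨Fin 2, inferInstance, inferInstance, base (dat l (kJ w l)) hd, ?_, ?_, ?_⟩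
  · rw [P_base, pp_one a1 a2, a3]
  · rw [EH_base, EJ_eq hl0 hl1 h1 h2]
  · rw [cc_base, C0_eq a1 a2, a3]

/-- **the twist** -/
lemma ach_twist {w l t : ℝ} (hl0 : 0 < l) (hl1 : l ≤ 1 / 2) (h1 : l ≤ w) (h2 : w ≤ 1 - l)
    (ht0 : 0 < t) (ht1 : t < 1) (ht : t ≤ (1 - t) * (1 - w)) :
    Ach (w + t * (1 - 2 * w)) (EJ w l + 2 * t) (Real.binEntropy w - Real.binEntropy l +
      t * (1 - t) * (l * (1 - l)) * Real.log ((1 - t) * (1 - w) / t)) := by
  obtain ⟨a1, a2, a3⟩ := kJ_mem hl1 h1 h2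
  have hd := isDat (l := l) hl0.le (by linarith) a1 a2
  have hp1 : pp (dat l (kJ w l)) 1 = w := by rw [pp_one a1 a2, a3]
  have hp0 : pp (dat l (kJ w l)) 0 = 1 - w := by
    rw [pp_zero a1 a2]
    linear_combination (-1 : ℝ) * a3
  have hτ1 : (Equiv.swap (0 : Fin 2) 1).symm 1 = 0 := by simp
  have hτ0 : (Equiv.swap (0 : Fin 2) 1).symm 0 = 1 := by simp
  refine ⟨_, inferInstance, inferInstance, twist (dat l (kJ w l)) hd t ht0.le ht1.le
    (Equiv.swap 0 1), ?_, ?_, ?_⟩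
  · rw [P_twist, hτ1, hp1, hp0]
    ring
  · refine (EH_twist _ hd t ht0.le ht1.le _).trans ?_
    rw [EJ_eq hl0.le hl1 h1 h2]
  · have h := cc_twist (dat l (kJ w l)) hd t ht0 ht1 (Equiv.swap 0 1) 0
      (by rw [hτ0, Dm_eq a1 a2]; exact mul_pos hl0 (by linarith)) (by rw [hp0]; exact ht)
    rw [hτ0, Dm_eq a1 a2, hp0, C0_eq a1 a2, a3] at h
    exact h

end Pool.Agent.K9h1.CW
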