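import Pool.Agent.K9h1.CW.Cover

/-!
K9h1/CW (helper1, MP_0430e4_lc): the bound for constant weight codes given by a site.
-/

open Finset

namespace Pool.Agent.K9h1.CW

open Pool.Agent.H390R2.LP Pool.Agent.H235R2.QLP Pool.Agent.H703R2.LP

variable {n : ℕ}

/-- the product weight -/
noncomputable def pw (ω : ℝ) (x : Fin n → Fin 2) : ℝ :=
  ω ^ hammingNorm x * (1 - ω) ^ (n - hammingNorm x)

lemma prod_P (P : Fin 2 → ℝ) (x : Fin n → Fin 2) :
    ∏ k, P (x k) = P 1 ^ hammingNorm x * P 0 ^ (n - hammingNorm x) := by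
  have h1 : ∀ k, P (x k) = if x k ≠ 0 then P 1 else P 0 := by
    intro k
    by_cases h : x k = 0
    · rw [if_neg (not_not.2 h), h]
    · rw [if_pos h, fin2 _ h]
  rw [Finset.prod_congr rfl fun k _ => h1 k, Finset.prod_ite, Finset.prod_const,
    Finset.prod_const]
  congr 2
  have h2 := Finset.card_filter_add_card_filter_not (s := (univ : Finset (Fin n)))
    (fun k => x k ≠ 0)
  rw [Finset.card_univ, Fintype.card_fin] at h2
  have h3 : (univ.filter fun k => x k ≠ 0).card = hammingNorm x := rfl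
  rw [h3] at h2
  omega

lemma norm_le (x : Fin n → Fin 2) : hammingNorm x ≤ n := by
  have := hammingNorm_le_card_fintype (x := x)
  rwa [Fintype.card_fin] at this

lemma sum_norm (x : Fin n → Fin 2) :
    ∑ k, (if x k = 1 then (1 : ℝ) else 0) = hammingNorm x := by
  rw [Finset.sum_boole]
  unfold hammingNorm
  congr 2
  ext k
  simp only [Finset.mem_filter, Finset.mem_univ, true_and]
  constructor
  · intro h
    rw [h]
    exact one_ne_zero
  · exact fin2 _

/-- lower bound for the weights of typical words -/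
lemma pw_lower {ω η : ℝ} (h0 : 0 < ω) (h1 : ω < 1) (hη : 0 ≤ η) {m : ℕ} (hm : m ≤ n)
    (hw : |(m : ℝ) - ω * n| ≤ η * n) :
    Real.exp (-(n * (Real.binEntropy ω + η * (-Real.log ω - Real.log (1 - ω))))) ≤
      ω ^ m * (1 - ω) ^ (n - m) := by
  have h1' : 0 < 1 - ω := by linarith
  have hl0 : Real.log ω < 0 := Real.log_neg h0 h1
  have hl1 : Real.log (1 - ω) < 0 := Real.log_neg h1' (by linarith)
  have e : ω ^ m * (1 - ω) ^ (n - m) =
      Real.exp (m * Real.log ω + (n - m) * Real.log (1 - ω)) := by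
    rw [Real.exp_add, mul_comm (m : ℝ), ← Nat.cast_sub hm, mul_comm (((n - m : ℕ)) : ℝ),
      Real.exp_mul, Real.exp_mul, Real.exp_log h0, Real.exp_log h1', Real.rpow_natCast,
      Real.rpow_natCast]
  rw [e]
  refine Real.exp_le_exp.2 ?_
  have hb : Real.binEntropy ω = -(ω * Real.log ω) - (1 - ω) * Real.log (1 - ω) := by
    unfold Real.binEntropy
    rw [Real.log_inv, Real.log_inv]
    ring
  rw [hb]
  have h2 := abs_le.1 hw
  have h3 : (m - ω * n) * Real.log ω ≥ η * n * Real.log ω := by
    nlinarith [h2.1, h2.2]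
  have h4 : (ω * n - m) * Real.log (1 - ω) ≥ η * n * Real.log (1 - ω) := by
    nlinarith [h2.1, h2.2]
  nlinarith

/-- **The bound for constant weight codes given by a site.** -/
theorem cw_bound {Ω : Type} [Fintype Ω] [DecidableEq Ω] (s : Site Ω (Fin 2)) {ω δ ε : ℝ}
    (h0 : 0 < ω) (h1 : ω < 1) (hP : s.P 1 = ω) (hE : EH s < δ) (hE0 : 0 ≤ EH s) (hε : 0 < ε) :
    ∃ η : ℝ, 0 < η ∧ ∃ n0 : ℕ, ∀ n ≥ n0, ∀ w : ℕ, |(w : ℝ) - ω * n| ≤ η * n →
      ∀ C : Finset (Fin n → Fin 2), (∀ x ∈ C, hammingNorm x = w) →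
      (∀ x ∈ C, ∀ y ∈ C, x ≠ y → δ * n ≤ hammingDist x y) →
      (C.card : ℝ) ≤ Real.exp (n * (Real.binEntropy ω - cc s + ε)) := by
  classical
  have h1' : 0 < 1 - ω := by linarith
  have hl0 : Real.log ω < 0 := Real.log_neg h0 h1
  have hl1 : Real.log (1 - ω) < 0 := Real.log_neg h1' (by linarith)
  have hP0 : s.P 0 = 1 - ω := by
    have := site_P_sum s
    rw [Fin.sum_univ_two, hP] at this
    linarith
  obtain ⟨L, hL⟩ : ∃ L, L = -Real.log ω - Real.log (1 - ω) := ⟨_, rfl⟩
  have hL0 : 0 < L := by rw [hL]; linarith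
  have hδ : 0 < δ := by linarith
  obtain ⟨g, hg⟩ : ∃ g, g = δ - EH s := ⟨_, rfl⟩
  have hg0 : 0 < g := by rw [hg]; linarith
  obtain ⟨e, he⟩ : ∃ e, e = min (1 / 4) (min (ε / 4) (g / (8 * (1 + δ)))) := ⟨_, rfl⟩
  have he0 : 0 < e := by rw [he]; exact lt_min (by norm_num) (lt_min (by positivity) (by positivity))
  have he1 : e ≤ 1 / 4 := he ▸ min_le_left _ _
  have he2 : e ≤ ε / 4 := he ▸ (min_le_right _ _).trans (min_le_left _ _)
  have he3 : e * (8 * (1 + δ)) ≤ g := by
    have : e ≤ g / (8 * (1 + δ)) := he ▸ (min_le_right _ _).trans (min_le_right _ _)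
    rwa [le_div_iff₀ (by positivity)] at this
  obtain ⟨η, hη⟩ : ∃ η, η = min (g / 32) (min (ε / (4 * L)) (δ / 16)) := ⟨_, rfl⟩
  have hη0 : 0 < η := by rw [hη]; exact lt_min (by positivity) (lt_min (by positivity) (by positivity))
  have hη1 : η ≤ g / 32 := hη ▸ min_le_left _ _
  have hη2 : η * L ≤ ε / 4 := by
    have : η ≤ ε / (4 * L) := hη ▸ (min_le_right _ _).trans (min_le_left _ _)
    rw [le_div_iff₀ (by positivity)] at this
    linarith
  have hη3 : η ≤ δ / 16 := hη ▸ (min_le_right _ _).trans (min_le_right _ _)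
  obtain ⟨n1, hn1⟩ := iid_fam s (fq 2) he0
  obtain ⟨VV, hVV⟩ : ∃ VV : ℝ, VV = ∑ y : Fin 2, s.P y * ((if y = 1 then (1 : ℝ) else 0) -
    ∑ y' : Fin 2, s.P y' * (if y' = 1 then (1 : ℝ) else 0)) ^ 2 := ⟨_, rfl⟩
  obtain ⟨n2, hn2⟩ := exists_nat_gt (VV / (η ^ 2 * e))
  refine ⟨η, hη0, max (max n1 n2) 1, fun n hn w hw C hCw hCd => ?_⟩
  have hnn1 : n1 ≤ n := le_trans (le_trans (le_max_left _ _) (le_max_left _ _)) hn
  have hnn2 : n2 ≤ n := le_trans (le_trans (le_max_right _ _) (le_max_left _ _)) hn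
  have hnn0 : 0 < n := le_trans (le_max_right _ _) hn
  have hnR : (0 : ℝ) < n := by exact_mod_cast hnn0
  by_contra hcon
  push Not at hcon
  have hCR : (0 : ℝ) < C.card := lt_trans (Real.exp_pos _) hcon
  have hfac : (0 : ℝ) < (n.factorial : ℝ) := by exact_mod_cast n.factorial_pos
  -- typical words
  obtain ⟨B, hB⟩ : ∃ B : Finset (Fin n → Fin 2), B = univ.filter fun x =>
    |(hammingNorm x : ℝ) - ω * n| < η * n := ⟨_, rfl⟩
  have hmemB : ∀ x : Fin n → Fin 2, x ∈ B ↔ |(hammingNorm x : ℝ) - ω * n| < η * n := by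
    intro x
    rw [hB, Finset.mem_filter]
    simp
  -- the moves
  have hmove : ∀ (m : ℕ) (x : Fin n → Fin 2), ∃ y : Fin n → Fin 2, m ≤ n → hammingNorm y = m ∧
      (hammingDist x y : ℝ) ≤ |(hammingNorm x : ℝ) - m| := by
    intro m x
    by_cases hm : m ≤ n
    · obtain ⟨y, h1, h2⟩ := exists_move x hm
      exact ⟨y, fun _ => ⟨h1, h2⟩⟩
    · exact ⟨x, fun h => absurd h hm⟩
  choose mv hmv using hmove
  -- the codes of the other weights
  have hclose : ∀ m : ℕ, m ≤ n → |(m : ℝ) - ω * n| < η * n → ∀ x ∈ C, ∀ y ∈ C, x ≠ y →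
      (δ - 4 * η) * n ≤ hammingDist (mv m x) (mv m y) := by
    intro m hm hm2 x hx y hy hxy
    have a1 := (hmv m x hm).2
    have a2 := (hmv m y hm).2
    rw [hCw x hx] at a1
    rw [hCw y hy] at a2
    have a3 : |(w : ℝ) - m| ≤ 2 * η * n := by
      have : (w : ℝ) - m = ((w : ℝ) - ω * n) - (m - ω * n) := by ring
      rw [this]
      refine (abs_sub _ _).trans ?_
      linarith
    have a4 : (hammingDist x y : ℝ) ≤ hammingDist x (mv m x) + hammingDist (mv m x) (mv m y) +
        hammingDist y (mv m y) := by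
      have b1 := hammingDist_triangle x (mv m x) y
      have b2 := hammingDist_triangle (mv m x) (mv m y) y
      rw [hammingDist_comm (mv m y) y] at b2
      have : hammingDist x y ≤ hammingDist x (mv m x) + hammingDist (mv m x) (mv m y) +
        hammingDist y (mv m y) := by omega
      exact_mod_cast this
    have a5 := hCd x hx y hy hxy
    linarith
  have hd0 : 0 < δ - 4 * η := by linarith
  have hinj : ∀ m : ℕ, m ≤ n → |(m : ℝ) - ω * n| < η * n → Set.InjOn (mv m) (C : Set (Fin n → Fin 2)) := by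
    intro m hm hm2 x hx y hy hxy
    by_contra hne
    have h2 := hclose m hm hm2 x hx y hy hne
    rw [hxy, hammingDist_self] at h2
    have : 0 < (δ - 4 * η) * n := by positivity
    push_cast at h2
    linarith
  -- the family
  let Cm : ℕ → Finset (Fin n → Fin 2) := fun m => C.image (mv m)
  have hCm_card : ∀ m : ℕ, m ≤ n → |(m : ℝ) - ω * n| < η * n → (Cm m).card = C.card :=
    fun m hm hm2 => Finset.card_image_of_injOn (hinj m hm hm2)
  have hCm_w : ∀ m : ℕ, m ≤ n → ∀ x ∈ Cm m, hammingNorm x = m := by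
    intro m hm x hx
    obtain ⟨y, -, rfl⟩ := Finset.mem_image.1 hx
    exact (hmv m y hm).1
  let S : Fin (n + 1) × Equiv.Perm (Fin n) → Finset (Fin n → Fin 2) := fun v =>
    univ.filter fun x => (fun i => x (v.2 i)) ∈ Cm v.1
  let a : Fin (n + 1) × Equiv.Perm (Fin n) → ℝ := fun v =>
    if |((v.1 : ℕ) : ℝ) - ω * n| < η * n then
      ((Sl n v.1).card : ℝ) / ((n.factorial : ℝ) * C.card) else 0
  have ha0 : ∀ v, 0 ≤ a v := by
    intro v
    simp only [a]
    split_ifs
    · positivity
    · exact le_rfl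
  have hcov : ∀ x : Fin n → Fin 2, (∑ v, if x ∈ S v then a v else 0) = if x ∈ B then 1 else 0 := by
    intro x
    rw [Fintype.sum_prod_type]
    have hx1 : hammingNorm x < n + 1 := Nat.lt_succ_of_le (norm_le x)
    rw [Finset.sum_eq_single (⟨hammingNorm x, hx1⟩ : Fin (n + 1))]
    · simp only [S, a]
      by_cases hxB : |(hammingNorm x : ℝ) - ω * n| < η * n
      · rw [if_pos ((hmemB x).2 hxB)]
        simp only [if_pos hxB]
        have e2 := Nn_mul (hCm_w _ (norm_le x)) (x := x) rfl
        rw [hCm_card _ (norm_le x) hxB] at e2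
        have e3 : ((Sl n (hammingNorm x)).card : ℝ) * (Nn (Cm (hammingNorm x)) x : ℝ) =
            (n.factorial : ℝ) * C.card := by exact_mod_cast e2
        obtain ⟨A0, hA0⟩ : ∃ A0 : ℝ, A0 =
          ((Sl n (hammingNorm x)).card : ℝ) / ((n.factorial : ℝ) * C.card) := ⟨_, rfl⟩
        have e4 : (∑ σ : Equiv.Perm (Fin n), if x ∈ univ.filter (fun y : Fin n → Fin 2 =>
            (fun i => y (σ i)) ∈ Cm (hammingNorm x)) then A0 else 0) =
            (Nn (Cm (hammingNorm x)) x : ℝ) * A0 := by
          unfold Nn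
          rw [← nsmul_eq_mul, ← Finset.sum_const, Finset.sum_filter]
          refine Finset.sum_congr rfl fun σ _ => ?_
          simp only [Finset.mem_filter, Finset.mem_univ, true_and]
        rw [← hA0, e4, hA0]
        rw [← mul_div_assoc, mul_comm, e3]
        exact div_self (by positivity)
      · rw [if_neg (fun h => hxB ((hmemB x).1 h))]
        simp only [if_neg hxB, ite_self, Finset.sum_const_zero]
    · intro m _ hm
      refine Finset.sum_eq_zero fun σ _ => ?_
      rw [if_neg]
      intro hx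
      have h2 : (fun i => x (σ i)) ∈ Cm m := (Finset.mem_filter.1 hx).2
      have h3 := hCm_w m (Nat.lt_succ_iff.1 m.2) _ h2
      rw [norm_comp] at h3
      exact hm (Fin.ext h3.symm)
    · intro h
      exact absurd (Finset.mem_univ _) h
  have hsum : ∑ v, a v = (B.card : ℝ) / C.card := by
    rw [Fintype.sum_prod_type]
    simp only [a, Finset.sum_const, Finset.card_univ, Fintype.card_perm, Fintype.card_fin]
    have e1 : (B.card : ℝ) = ∑ m : Fin (n + 1), if |((m : ℕ) : ℝ) - ω * n| < η * n then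
        ((Sl n m).card : ℝ) else 0 := by
      have e2 : B.card = ∑ m : Fin (n + 1), (B.filter fun x => hammingNorm x = m).card := by
        have h3 := Finset.card_eq_sum_card_fiberwise (s := B) (t := (univ : Finset (Fin (n + 1))))
          (f := fun x => (⟨hammingNorm x, Nat.lt_succ_of_le (norm_le x)⟩ : Fin (n + 1)))
          (fun _ _ => Finset.mem_coe.2 (Finset.mem_univ _))
        rw [h3]
        refine Finset.sum_congr rfl fun m _ => ?_
        congr 1
        ext x
        simp only [Finset.mem_filter, and_congr_right_iff]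
        intro _
        rw [Fin.ext_iff]
      rw [e2]
      push_cast
      refine Finset.sum_congr rfl fun m _ => ?_
      split_ifs with hm
      · congr 2
        ext x
        rw [Finset.mem_filter, hmemB, mem_Sl]
        constructor
        · exact fun h => h.2
        · intro h
          refine ⟨by rw [h]; exact hm, h⟩
      · have : (B.filter fun x => hammingNorm x = m) = ∅ := by
          rw [Finset.filter_eq_empty_iff]
          intro x hx h
          rw [hmemB, h] at hx
          exact hm hx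
        rw [this]
        simp
    rw [e1, Finset.sum_div]
    refine Finset.sum_congr rfl fun m _ => ?_
    split_ifs
    · rw [nsmul_eq_mul]
      field_simp
    · simp
  have hPn : ∀ x : Fin n → Fin 2, 0 ≤ ∏ k, s.P (x k) :=
    fun x => Finset.prod_nonneg fun k _ => site_P_nonneg s _
  have hPsum : ∑ x : Fin n → Fin 2, ∏ k, s.P (x k) = 1 := by
    have h3 := Finset.prod_univ_sum (fun _ : Fin n => (univ : Finset (Fin 2)))
      (fun _ y => s.P y)
    rw [Fintype.piFinset_univ] at h3
    rw [← h3, site_P_sum s]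
    simp
  have hBcard : (B.card : ℝ) ≤ Real.exp (n * (Real.binEntropy ω + η * L)) := by
    have e1 : (B.card : ℝ) * Real.exp (-(n * (Real.binEntropy ω + η * L))) ≤ 1 := by
      rw [← nsmul_eq_mul, ← Finset.sum_const, ← hPsum]
      refine (Finset.sum_le_sum fun x hx => ?_).trans
        (Finset.sum_le_sum_of_subset_of_nonneg (Finset.subset_univ B) fun x _ _ => hPn x)
      rw [prod_P, hP, hP0, hL]
      exact pw_lower h0 h1 hη0.le (norm_le x) ((hmemB x).1 hx).le
    rw [Real.exp_neg, ← div_eq_mul_inv, div_le_one (Real.exp_pos _)] at e1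
    exact e1
  have key := hn1 n hnn1 _ S a ((δ - 4 * η) * n) (by positivity) ha0
    (by
      intro x
      rw [hcov]
      split_ifs <;> norm_num)
    (by
      intro v hv x hx y hy hxy
      rw [dist_fq]
      have hv2 : |((v.1 : ℕ) : ℝ) - ω * n| < η * n := by
        by_contra h
        exact hv (if_neg h)
      have hx2 : (fun i => x (v.2 i)) ∈ Cm v.1 := (Finset.mem_filter.1 hx).2
      have hy2 : (fun i => y (v.2 i)) ∈ Cm v.1 := (Finset.mem_filter.1 hy).2
      obtain ⟨c, hc, hce⟩ := Finset.mem_image.1 hx2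
      obtain ⟨c', hc', hce'⟩ := Finset.mem_image.1 hy2
      rw [← dist_comp x y v.2, ← hce, ← hce']
      refine hclose v.1 (Nat.lt_succ_iff.1 v.1.2) hv2 c hc c' hc' ?_
      rintro rfl
      apply hxy
      funext i
      have := congrFun (hce.symm.trans hce') (v.2.symm i)
      simpa using this)
    (by
      rw [hsum, div_le_iff₀ hCR]
      refine hBcard.trans ?_
      have h3 : Real.exp (n * (s.h - s.S - e)) * Real.exp (n * (Real.binEntropy ω - cc s + ε)) ≤
          Real.exp (n * (s.h - s.S - e)) * C.card :=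
        mul_le_mul_of_nonneg_left hcon.le (Real.exp_pos _).le
      refine le_trans ?_ h3
      rw [← Real.exp_add]
      refine Real.exp_le_exp.2 ?_
      have h4 : (n : ℝ) * (s.h - s.S - e) + n * (Real.binEntropy ω - cc s + ε) =
          n * (Real.binEntropy ω + (ε - e)) := by
        unfold cc
        ring
      rw [h4]
      exact mul_le_mul_of_nonneg_left (by linarith) hnR.le)
  rw [E_eq] at key
  have hdef : ∑ x : Fin n → Fin 2, (∏ k, s.P (x k)) *
      (1 - ∑ v, if x ∈ S v then a v else 0) ≤ e := by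
    simp_rw [hcov]
    have h3 : ∑ x : Fin n → Fin 2, (∏ k, s.P (x k)) * (1 - if x ∈ B then (1 : ℝ) else 0) =
        ∑ x ∈ univ.filter (fun x => x ∉ B), ∏ k, s.P (x k) := by
      rw [Finset.sum_filter]
      refine Finset.sum_congr rfl fun x _ => ?_
      by_cases h4 : x ∈ B
      · rw [if_pos h4, if_neg (not_not.2 h4)]
        ring
      · rw [if_neg h4, if_pos h4]
        ring
    rw [h3]
    have h4 := cheb hnn0 s.P (site_P_nonneg s) (site_P_sum s)
      (fun y : Fin 2 => if y = 1 then (1 : ℝ) else 0) hη0 (univ.filter (fun x => x ∉ B)) (by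
        intro x hx
        have hx2 := (Finset.mem_filter.1 hx).2
        rw [hmemB, not_lt] at hx2
        have h6 : ∑ y : Fin 2, s.P y * (if y = 1 then (1 : ℝ) else 0) = ω := by
          rw [Fin.sum_univ_two, hP]
          simp
        rw [h6, sum_norm, mul_comm (n : ℝ) η, mul_comm (n : ℝ) ω]
        exact hx2)
    refine h4.trans ?_
    rw [← hVV, div_le_iff₀ (by positivity)]
    have h5 : VV / (η ^ 2 * e) < n := lt_of_lt_of_le hn2 (by exact_mod_cast hnn2)
    rw [div_lt_iff₀ (by positivity)] at h5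
    nlinarith
  have h5 : (δ - 4 * η) * n * (1 - 2 * e) ≤ n * (EH s + e) := by
    refine le_trans ?_ key
    apply mul_le_mul_of_nonneg_left _ (by positivity)
    linarith
  have h6 : (δ - 4 * η) * (1 - 2 * e) ≤ EH s + e := by
    have : (δ - 4 * η) * (1 - 2 * e) * n ≤ (EH s + e) * n := by linarith
    exact le_of_mul_le_mul_right this hnR
  have h7 : EH s = δ - g := by rw [hg]; ring
  rw [h7] at h6
  have h8 : 0 ≤ η * e := by positivity
  have h9 : 0 < e * δ := by positivity
  nlinarith

end Pool.Agent.K9h1.CW
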