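import Pool.Agent.H390R2.LP.Main
import Pool.Agent.H235R2.QLP.Rate
import Pool.Agent.H703R2.LP.Cheb

/-!
K9h1/CW (helper1, MP_0430e4_lc): constant weight codes and the product theorem for sites.
-/

open Finset

namespace Pool.Agent.K9h1.CW

open Pool.Agent.H390R2.LP Pool.Agent.H235R2.QLP Pool.Agent.H703R2.LP

/-- The weighted product theorem, for families of sets. -/
theorem iid_fam {Ω X I : Type} [Fintype Ω] [DecidableEq Ω] [Fintype X] [DecidableEq X]
    [Fintype I] (s : Site Ω X) (f : I → X → ℝ) {ε : ℝ} (hε : 0 < ε) : ∃ n0 : ℕ, ∀ n ≥ n0,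
    ∀ (V : Type) [Fintype V] (S : V → Finset (Fin n → X)) (a : V → ℝ) (d : ℝ), 0 ≤ d →
    (∀ v, 0 ≤ a v) → (∀ x, (∑ v, if x ∈ S v then a v else 0) ≤ 1) →
    (∀ v, a v ≠ 0 → ∀ x ∈ S v, ∀ y ∈ S v, x ≠ y → d ≤ ∑ k, ∑ i, (f i (x k) - f i (y k)) ^ 2) →
    ∑ v, a v ≤ Real.exp (n * (s.h - s.S - ε)) →
    d * (1 - ε - ∑ x : Fin n → X, (∏ k, s.P (x k)) *
      (1 - ∑ v, if x ∈ S v then a v else 0)) ≤ n * (s.E f + ε) := by
  obtain ⟨n0, hn0⟩ := iidw Ω X I s f ε hε
  refine ⟨n0, fun n hn V _ S a d hd ha hcov hdist hsum => ?_⟩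
  classical
  obtain ⟨wt, hwt⟩ : ∃ wt : Finset (Fin n → X) → ℝ, wt = fun T => ∑ v, if S v = T then a v else 0 :=
    ⟨_, rfl⟩
  have hcov' : ∀ x, ∑ T ∈ univ.filter (fun T : Finset (Fin n → X) => x ∈ T), wt T =
      ∑ v, if x ∈ S v then a v else 0 := by
    intro x
    rw [hwt]
    rw [Finset.sum_comm]
    refine Finset.sum_congr rfl fun v _ => ?_
    rw [Finset.sum_ite_eq]
    simp only [Finset.mem_filter, Finset.mem_univ, true_and]
  have hsum' : ∑ T, wt T = ∑ v, a v := by
    rw [hwt]
    rw [Finset.sum_comm]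
    refine Finset.sum_congr rfl fun v _ => ?_
    rw [Finset.sum_ite_eq]
    simp only [Finset.mem_univ, if_true]
  have key := hn0 n hn wt d hd ?_ ?_ ?_ ?_
  · simp_rw [hcov'] at key
    exact key
  · intro T
    rw [hwt]
    exact Finset.sum_nonneg fun v _ => by split_ifs; exacts [ha v, le_rfl]
  · intro x
    rw [hcov']
    exact hcov x
  · intro T hT x hx y hy hxy
    rw [hwt] at hT
    obtain ⟨v, -, hv⟩ := Finset.exists_ne_zero_of_sum_ne_zero hT
    by_cases h : S v = T
    · rw [if_pos h] at hv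
      subst h
      exact hdist v hv x hx y hy hxy
    · rw [if_neg h] at hv
      exact absurd rfl hv
  · rw [hsum']
    exact hsum

variable {n : ℕ}

/-- indicator word of a set -/
def iw (S : Finset (Fin n)) : Fin n → Fin 2 := fun i => if i ∈ S then 1 else 0

/-- support -/
def sp (x : Fin n → Fin 2) : Finset (Fin n) := univ.filter fun i => x i ≠ 0

lemma fin2 (a : Fin 2) (h : a ≠ 0) : a = 1 := by omega

lemma iw_sp (x : Fin n → Fin 2) : iw (sp x) = x := by
  funext i
  unfold iw sp
  by_cases h : x i = 0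
  · rw [if_neg (by simp [h]), h]
  · rw [if_pos (by simp [h]), fin2 _ h]

lemma norm_iw (S : Finset (Fin n)) : hammingNorm (iw S) = S.card := by
  unfold hammingNorm iw
  congr 1
  ext i
  simp only [Finset.mem_filter, Finset.mem_univ, true_and]
  by_cases h : i ∈ S
  · simp [h]
  · simp [h]

lemma card_sp (x : Fin n → Fin 2) : (sp x).card = hammingNorm x := rfl

lemma dist_iw {S T : Finset (Fin n)} (h : S ⊆ T) : hammingDist (iw S) (iw T) = T.card - S.card := by
  rw [← Finset.card_sdiff_of_subset h]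
  unfold hammingDist iw
  congr 1
  ext i
  simp only [Finset.mem_filter, Finset.mem_univ, true_and, Finset.mem_sdiff]
  by_cases h1 : i ∈ S
  · have h2 := h h1
    simp [h1, h2]
  · by_cases h2 : i ∈ T
    · simp [h1, h2]
    · simp [h1, h2]

/-- a word of another weight nearby -/
lemma exists_move (x : Fin n → Fin 2) {w' : ℕ} (hw : w' ≤ n) :
    ∃ y : Fin n → Fin 2, hammingNorm y = w' ∧
      (hammingDist x y : ℝ) ≤ |(hammingNorm x : ℝ) - w'| := by
  rcases le_total (hammingNorm x) w' with h | h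
  · obtain ⟨T, h1, h2, h3⟩ := Finset.exists_subsuperset_card_eq (n := w')
      (Finset.subset_univ (sp x)) (by rw [card_sp]; exact h)
      (by rw [Finset.card_univ, Fintype.card_fin]; exact hw)
    refine ⟨iw T, by rw [norm_iw, h3], ?_⟩
    have h4 := dist_iw h1
    rw [iw_sp, card_sp, h3] at h4
    rw [h4, Nat.cast_sub h, abs_sub_comm]
    exact le_abs_self _
  · obtain ⟨T, h1, h3⟩ := Finset.exists_subset_card_eq (s := sp x) (n := w')
      (by rw [card_sp]; exact h)
    refine ⟨iw T, by rw [norm_iw, h3], ?_⟩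
    have h4 := dist_iw h1
    rw [iw_sp, card_sp, h3] at h4
    rw [hammingDist_comm, h4, Nat.cast_sub h]
    exact le_abs_self _

/-- words of one weight -/
def Sl (n w : ℕ) : Finset (Fin n → Fin 2) := univ.filter fun x => hammingNorm x = w

lemma mem_Sl {w : ℕ} {x : Fin n → Fin 2} : x ∈ Sl n w ↔ hammingNorm x = w := by
  unfold Sl
  simp

lemma norm_comp (x : Fin n → Fin 2) (σ : Equiv.Perm (Fin n)) :
    hammingNorm (fun i => x (σ i)) = hammingNorm x := by
  unfold hammingNorm
  refine Finset.card_bij (fun i _ => σ i) ?_ ?_ ?_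
  · intro i hi
    simpa using hi
  · intro i _ j _ h
    exact σ.injective h
  · intro i hi
    exact ⟨σ.symm i, by simpa using hi, by simp⟩

lemma dist_comp (x y : Fin n → Fin 2) (σ : Equiv.Perm (Fin n)) :
    hammingDist (fun i => x (σ i)) (fun i => y (σ i)) = hammingDist x y := by
  unfold hammingDist
  refine Finset.card_bij (fun i _ => σ i) ?_ ?_ ?_
  · intro i hi
    simpa using hi
  · intro i _ j _ h
    exact σ.injective h
  · intro i hi
    exact ⟨σ.symm i, by simpa using hi, by simp⟩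

/-- transitivity on the words of one weight -/
lemma exists_perm {x y : Fin n → Fin 2} (h : hammingNorm x = hammingNorm y) :
    ∃ σ : Equiv.Perm (Fin n), (fun i => x (σ i)) = y := by
  have hc : Fintype.card {i // y i ≠ 0} = Fintype.card {i // x i ≠ 0} := by
    rw [Fintype.card_subtype, Fintype.card_subtype]
    exact h.symm
  let e : {i // y i ≠ 0} ≃ {i // x i ≠ 0} := Fintype.equivOfCardEq hc
  refine ⟨e.extendSubtype, ?_⟩
  funext i
  by_cases hi : y i = 0
  · have h1 := e.extendSubtype_not_mem i (by simpa using hi)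
    rw [hi]
    by_contra h2
    exact h1 h2
  · have h1 := e.extendSubtype_mem i hi
    rw [fin2 _ hi, fin2 _ h1]

/-- the number of permutations which bring `x` into `C` -/
def Nn (C : Finset (Fin n → Fin 2)) (x : Fin n → Fin 2) : ℕ :=
  (univ.filter fun σ : Equiv.Perm (Fin n) => (fun i => x (σ i)) ∈ C).card

lemma Nn_eq (C : Finset (Fin n → Fin 2)) {x y : Fin n → Fin 2}
    (h : hammingNorm x = hammingNorm y) : Nn C x = Nn C y := by
  obtain ⟨τ, hτ⟩ := exists_perm h
  unfold Nn
  refine Finset.card_bij' (fun σ _ => τ⁻¹ * σ) (fun σ _ => τ * σ) ?_ ?_ ?_ ?_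
  · intro σ hσ
    simp only [Finset.mem_filter, Finset.mem_univ, true_and] at hσ ⊢
    rw [← hτ]
    simpa using hσ
  · intro σ hσ
    simp only [Finset.mem_filter, Finset.mem_univ, true_and] at hσ ⊢
    rw [← hτ] at hσ
    simpa using hσ
  · intro σ _
    simp
  · intro σ _
    simp

lemma Nn_sum {C : Finset (Fin n → Fin 2)} {w : ℕ} (hC : ∀ x ∈ C, hammingNorm x = w) :
    ∑ x ∈ Sl n w, Nn C x = (n.factorial) * C.card := by
  classical
  unfold Nn
  simp_rw [Finset.card_filter]
  rw [Finset.sum_comm]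
  have h1 : ∀ σ : Equiv.Perm (Fin n),
      (∑ x ∈ Sl n w, if (fun i => x (σ i)) ∈ C then 1 else 0) = C.card := by
    intro σ
    rw [← Finset.card_filter]
    refine Finset.card_bij (fun x _ => fun i => x (σ i)) ?_ ?_ ?_
    · intro x hx
      exact (Finset.mem_filter.1 hx).2
    · intro x _ y _ hxy
      funext i
      have := congrFun hxy (σ.symm i)
      simpa using this
    · intro c hc
      refine ⟨fun i => c (σ.symm i), ?_, by funext i; simp⟩
      rw [Finset.mem_filter, mem_Sl]
      refine ⟨by rw [norm_comp c σ.symm]; exact hC c hc, ?_⟩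
      simpa using hc
  rw [Finset.sum_congr rfl fun σ _ => h1 σ, Finset.sum_const, Finset.card_univ,
    Fintype.card_perm, Fintype.card_fin, smul_eq_mul]

lemma Nn_mul {C : Finset (Fin n → Fin 2)} {w : ℕ} (hC : ∀ x ∈ C, hammingNorm x = w)
    {x : Fin n → Fin 2} (hx : hammingNorm x = w) :
    (Sl n w).card * Nn C x = (n.factorial) * C.card := by
  rw [← Nn_sum hC, Finset.sum_congr rfl fun y hy => Nn_eq C ((mem_Sl.1 hy).trans hx.symm),
    Finset.sum_const, smul_eq_mul]

end Pool.Agent.K9h1.CW
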