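import Pool.Agent.K9h1.CW.Strict
import Pool.Agent.TH971.MQ.A2

/-!
K9h1/CW (helper1, MP_0430e4_lc): sites and positive semidefinite matrices, with the masses of the
positions.
-/

open Finset Matrix

namespace Pool.Agent.K9h1.CW

open Pool.Agent.H390R2.LP Pool.Agent.H235R2.QLP Pool.Agent.TH753.MB Pool.Agent.TH971.MQ

variable {ι : Type} [Fintype ι] [DecidableEq ι]

lemma P_mat {q : ℕ} (s : Site ι (Fin q)) (x : Fin q) :
    s.P x = ∑ i, if s.pos i = x then mat s.u s.lam i i else 0 := by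
  rw [P_formula]
  simp_rw [Finset.mul_sum]
  rw [Finset.sum_comm]
  refine Finset.sum_congr rfl fun i _ => ?_
  split_ifs with h
  · simp only [mat, Matrix.of_apply]
    exact Finset.sum_congr rfl fun a _ => by ring
  · simp

/-- the site of a positive semidefinite matrix -/
theorem exists_site' {q : ℕ} (pos : ι → Fin q) (T : Matrix ι ι ℝ) (hT : T.PosSemidef)
    (htr : (T ^ 2).trace = 1) (h2 : (T ^ 2).IsHermitian) (h3 : (dep pos (T ^ 2)).IsHermitian) :
    ∃ s : Site ι (Fin q), cc s = ent _ h3 - ent _ h2 ∧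
      EH s = 1 - ∑ i, ∑ j, (if pos i = pos j then T i j ^ 2 else 0) ∧
      ∀ x, s.P x = ∑ i, if pos i = x then (T ^ 2) i i else 0 := by
  obtain ⟨u, hu, hTu⟩ := exists_spec T hT.isHermitian
  set t := hT.isHermitian.eigenvalues with ht
  have ht0 : ∀ a, 0 ≤ t a := hT.eigenvalues_nonneg
  have hT2 : T ^ 2 = mat u (fun a => t a ^ 2) := by
    conv_lhs => rw [hTu]
    exact mat_sq hu _
  obtain ⟨w, g, hw, hsupp, hD⟩ := block_spec pos (T ^ 2) h2
  have hdiag : ∀ c c', pos c = pos c' →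
      ∑ a, t a ^ 2 * (∑ ω, u a ω * w c ω) * (∑ ω, u a ω * w c' ω) = if c = c' then g c else 0 := by
    intro c c' hcc
    rw [← mat_form u (fun a => t a ^ 2) (w c) (w c'), ← hT2]
    have e1 : ∀ i j, w c i * (T ^ 2) i j * w c' j = w c i * mat w g i j * w c' j := by
      intro i j
      rw [← hD]
      simp only [dep, Matrix.of_apply]
      by_cases hi : pos i = pos c
      · by_cases hj : pos j = pos c'
        · rw [if_pos (by rw [hi, hj, hcc])]
        · rw [hsupp c' j hj]; ring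
      · rw [hsupp c i hi]; ring
    simp_rw [e1]
    rw [mat_form]
    have h2 : ∀ a, g a * (∑ i, w a i * w c i) * (∑ j, w a j * w c' j)
        = if a = c then (if c = c' then g c else 0) else 0 := by
      intro a
      rw [hw a c, hw a c']
      by_cases h : a = c
      · subst h; simp
      · simp [h]
    simp_rw [h2]
    simp
  let s : Site ι (Fin q) :=
    { pos := pos, u := u, w := w, lam := fun a => t a ^ 2, g := g, lab := pos, u_orth := hu,
      w_orth := hw, lam_nonneg := fun a => sq_nonneg _,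
      lam_sum := by rw [← mat_trace hu, ← hT2]; exact htr, w_supp := hsupp, w_diag := hdiag }
  refine ⟨s, ?_, ?_, ?_⟩
  · unfold cc Site.h Site.S
    rw [ent_mat hw g _ h3 hD, ent_mat hu _ _ h2 hT2]
  · unfold EH G
    congr 1
    have e3 : ∀ a b, √(s.lam a * s.lam b) = t a * t b := by
      intro a b
      show √(t a ^ 2 * t b ^ 2) = t a * t b
      rw [← mul_pow, Real.sqrt_sq (mul_nonneg (ht0 a) (ht0 b))]
    simp_rw [e3]
    have e4 := G_formula pos u t
    rw [← hTu] at e4
    exact e4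
  · intro x
    rw [P_mat, hT2]

/-- the matrix of a site -/
theorem of_site' {q : ℕ} (s : Site ι (Fin q)) : ∃ T : Matrix ι ι ℝ, T.PosSemidef ∧
    (T ^ 2).trace = 1 ∧ (∑ i, ∑ j, if s.pos i = s.pos j then T i j ^ 2 else 0) = 1 - EH s ∧
    (∀ x, (∑ i, if s.pos i = x then (T ^ 2) i i else 0) = s.P x) ∧
    ∀ (h2 : (T ^ 2).IsHermitian) (h3 : (dep s.pos (T ^ 2)).IsHermitian),
      ent _ h3 - ent _ h2 = cc s := by
  obtain ⟨T, hT, htr, haff, hent⟩ := of_site s
  obtain ⟨r, hrd⟩ : ∃ r : ι → ℝ, r = fun a => √(s.lam a) := ⟨_, rfl⟩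
  have hr0 : ∀ a, 0 ≤ r a := fun a => by rw [hrd]; exact Real.sqrt_nonneg _
  have hT2 : mat s.u r ^ 2 = mat s.u s.lam := by
    rw [mat_sq s.u_orth]
    congr 1
    funext a
    rw [hrd]
    exact Real.sq_sqrt (s.lam_nonneg a)
  have hD : dep s.pos (mat s.u s.lam) = mat s.w s.g := by
    set W : Matrix ι ι ℝ := Matrix.of s.w with hW
    have hWW : W * Wᵀ = 1 := on_mul s.w_orth
    have hWW' : Wᵀ * W = 1 := mul_eq_one_comm.mp hWW
    set M := dep s.pos (mat s.u s.lam) with hM
    have hMij : ∀ i j, M i j = if s.pos i = s.pos j then ∑ a, s.lam a * s.u a i * s.u a j else 0 := by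
      intro i j
      rw [hM]
      simp only [dep, mat, Matrix.of_apply]
    have key : W * M * Wᵀ = Matrix.diagonal s.g := by
      ext c c'
      have e2 : (W * M * Wᵀ) c c' = ∑ i, ∑ j, s.w c i * M i j * s.w c' j := by
        rw [Matrix.mul_apply]
        simp only [Matrix.mul_apply, Matrix.transpose_apply, hW, Matrix.of_apply]
        rw [Finset.sum_comm]
        refine Finset.sum_congr rfl fun j _ => ?_
        rw [Finset.sum_mul]
      rw [e2]
      by_cases hl : s.lab c = s.lab c'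
      · have e3 : ∀ i j, s.w c i * M i j * s.w c' j
            = s.w c i * (∑ a, s.lam a * s.u a i * s.u a j) * s.w c' j := by
          intro i j
          by_cases hi : s.pos i = s.lab c
          · by_cases hj : s.pos j = s.lab c'
            · rw [hMij, if_pos (by rw [hi, hj, hl])]
            · rw [s.w_supp c' j hj]; ring
          · rw [s.w_supp c i hi]; ring
        simp_rw [e3]
        have e4 := mat_form s.u s.lam (s.w c) (s.w c')
        simp only [mat, Matrix.of_apply] at e4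
        rw [e4]
        have := s.w_diag c c' hl
        rw [this]
        by_cases h : c = c'
        · subst h; simp
        · simp [h]
      · have hne : c ≠ c' := fun h => hl (by rw [h])
        rw [Matrix.diagonal_apply_ne _ hne]
        refine Finset.sum_eq_zero fun i _ => Finset.sum_eq_zero fun j _ => ?_
        by_cases hi : s.pos i = s.lab c
        · by_cases hj : s.pos j = s.lab c'
          · rw [hMij, if_neg (by rw [hi, hj]; exact hl)]; ring
          · rw [s.w_supp c' j hj]; ring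
        · rw [s.w_supp c i hi]; ring
    calc M = (Wᵀ * W) * M * (Wᵀ * W) := by rw [hWW']; simp
      _ = Wᵀ * (W * M * Wᵀ) * W := by simp only [Matrix.mul_assoc]
      _ = Wᵀ * Matrix.diagonal s.g * W := by rw [key]
      _ = mat s.w s.g := by rw [mat_eq, hW]; simp only [Matrix.mul_assoc]
  refine ⟨mat s.u r, mat_posSemidef _ _ hr0, ?_, ?_, ?_, ?_⟩
  · rw [hT2, mat_trace s.u_orth]
    exact s.lam_sum
  · rw [← G_formula s.pos s.u r]
    unfold EH G
    have e3 : ∀ a b, √(s.lam a * s.lam b) = r a * r b := fun a b => by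
      rw [hrd]
      exact Real.sqrt_mul (s.lam_nonneg a) _
    simp_rw [e3]
    ring
  · intro x
    rw [P_mat, hT2]
  · intro h2 h3
    rw [ent_mat s.u_orth _ _ h2 hT2, ent_mat s.w_orth s.g _ h3 (by rw [hT2]; exact hD)]
    rfl

lemma Ach.pos {ω δ c : ℝ} (h : Ach ω δ c) {t : ℝ} (ht0 : 0 < t) (ht1 : t ≤ 1) (h0 : 0 < ω)
    (h1 : ω < 1) (hδ : 0 < δ) : ∃ (Ω : Type) (_ : Fintype Ω) (_ : DecidableEq Ω)
      (s : Site Ω (Fin 2)), s.P 1 = ω ∧ EH s < δ ∧ 0 ≤ EH s ∧ (1 - t) * c ≤ cc s := by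
  have h2 := h.mix (ach_triv h0.le h1.le) (r := 1 - t) (by linarith) (by linarith)
  obtain ⟨Ω, i1, i2, s, a1, a2, a3⟩ := h2
  refine ⟨Ω, i1, i2, s, ?_, ?_, ?_, ?_⟩
  · rw [a1]; ring
  · nlinarith
  · rw [← E_eq]
    exact site_E_nonneg s _
  · linarith

/-- achieved triples bound the size of constant weight codes -/
theorem ach_bound {ω δ c ε : ℝ} (h : Ach ω δ c) (h0 : 0 < ω) (h1 : ω < 1) (hδ : 0 < δ)
    (hε : 0 < ε) : ∃ η, 0 < η ∧ ∃ n0 : ℕ, ∀ n ≥ n0, ∀ w : ℕ, |(w : ℝ) - ω * n| ≤ η * n →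
      ∀ C : Finset (Fin n → Fin 2), (∀ x ∈ C, hammingNorm x = w) →
        (∀ x ∈ C, ∀ y ∈ C, x ≠ y → δ * n ≤ hammingDist x y) →
        (C.card : ℝ) ≤ Real.exp (n * (Real.binEntropy ω - c + ε)) := by
  obtain ⟨t, ht⟩ : ∃ t, t = min 1 (ε / 2 / (|c| + 1)) := ⟨_, rfl⟩
  have hc : 0 < |c| + 1 := by positivity
  have ht0 : 0 < t := by rw [ht]; exact lt_min one_pos (by positivity)
  have ht1 : t ≤ 1 := by rw [ht]; exact min_le_left _ _
  have ht2 : t * c ≤ ε / 2 := by
    have h2 : t ≤ ε / 2 / (|c| + 1) := by rw [ht]; exact min_le_right _ _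
    rw [le_div_iff₀ hc] at h2
    have h3 : c ≤ |c| + 1 := by linarith [le_abs_self c]
    nlinarith
  obtain ⟨Ω, i1, i2, s, a1, a2, a3, a4⟩ := h.pos ht0 ht1 h0 h1 hδ
  obtain ⟨η, hη, n0, hn0⟩ := cw_bound s h0 h1 a1 a2 a3 (half_pos hε)
  refine ⟨η, hη, n0, fun n hn w hw C hC hd => (hn0 n hn w hw C hC hd).trans ?_⟩
  refine Real.exp_le_exp.2 (mul_le_mul_of_nonneg_left ?_ (Nat.cast_nonneg n))
  linarith

lemma exists_word (n w : ℕ) (h : w ≤ n) : ∃ x : Fin n → Fin 2, hammingNorm x = w := by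
  refine ⟨fun i => if i.1 < w then 1 else 0, ?_⟩
  unfold hammingNorm
  have : (univ.filter fun i : Fin n => (if i.1 < w then (1 : Fin 2) else 0) ≠ 0) =
      univ.filter fun i : Fin n => i.1 < w := by
    ext i
    simp only [Finset.mem_filter, Finset.mem_univ, true_and]
    split_ifs with h
    · simp [h]
    · simp [h]
  rw [this, Fin.card_filter_val_lt, min_eq_right h]

/-- the gain is at most the entropy -/
theorem ach_le {ω δ c : ℝ} (h : Ach ω δ c) (h0 : 0 < ω) (h1 : ω < 1) (hδ : 0 < δ) :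
    c ≤ Real.binEntropy ω := by
  refine le_of_forall_pos_le_add fun ε hε => ?_
  obtain ⟨η, hη, n0, hn0⟩ := ach_bound h h0 h1 hδ hε
  obtain ⟨m, hm⟩ := exists_nat_gt (1 / η)
  obtain ⟨n, hn⟩ : ∃ n, n = max n0 (max m 1) := ⟨_, rfl⟩
  have hn1 : n0 ≤ n := by rw [hn]; exact le_max_left _ _
  have hn2 : m ≤ n := by rw [hn]; exact (le_max_left _ _).trans (le_max_right _ _)
  have hn3 : 1 ≤ n := by rw [hn]; exact (le_max_right _ _).trans (le_max_right _ _)
  have hnR : (0 : ℝ) < n := by exact_mod_cast hn3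
  have hηn : 1 ≤ η * n := by
    have : (m : ℝ) ≤ n := by exact_mod_cast hn2
    rw [div_lt_iff₀ hη] at hm
    nlinarith
  have hfl := Nat.floor_le (mul_nonneg h0.le hnR.le)
  have hfl2 := Nat.lt_floor_add_one (ω * n)
  have hle : ⌊ω * n⌋₊ ≤ n := by
    have : ((⌊ω * n⌋₊ : ℕ) : ℝ) ≤ n := hfl.trans (by nlinarith)
    exact_mod_cast this
  obtain ⟨x, hx⟩ := exists_word n _ hle
  have h3 := hn0 n hn1 ⌊ω * n⌋₊ (by
    rw [abs_le]
    constructor <;> linarith) {x} (by
      intro y hy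
      rw [Finset.mem_singleton] at hy
      rw [hy, hx]) (by
      intro y hy z hz hyz
      rw [Finset.mem_singleton] at hy hz
      exact absurd (hy.trans hz.symm) hyz)
  rw [Finset.card_singleton, Nat.cast_one, ← Real.exp_zero, Real.exp_le_exp] at h3
  have h4 : 0 ≤ Real.binEntropy ω - c + ε := nonneg_of_mul_nonneg_right h3 hnR
  linarith

end Pool.Agent.K9h1.CW
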