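import Pool.Agent.K9h1.CW.Ach

/-!
K9h1/CW (helper1, MP_0430e4_lc): every finite mixture of the classical data is improved.
-/

open Finset

namespace Pool.Agent.K9h1.CW

lemma ach_sum {k : ℕ} (r p e c : Fin k → ℝ) (hr : ∀ j, 0 ≤ r j) (hs : ∑ j, r j = 1)
    (h : ∀ j, Ach (p j) (e j) (c j)) :
    Ach (∑ j, r j * p j) (∑ j, r j * e j) (∑ j, r j * c j) := by
  have hconv : Convex ℝ {z : ℝ × ℝ × ℝ | Ach z.1 z.2.1 z.2.2} := by
    intro x hx y hy a b ha hb hab
    have hb' : b = 1 - a := by linarith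
    subst hb'
    exact Ach.mix hx hy ha (by linarith)
  have h1 := hconv.sum_mem (t := univ) (w := r) (z := fun j => (p j, e j, c j))
    (fun j _ => hr j) hs (fun j _ => h j)
  have h2 : ∑ j, r j • (p j, e j, c j) =
      (∑ j, r j * p j, ∑ j, r j * e j, ∑ j, r j * c j) := by
    simp only [Prod.smul_mk, smul_eq_mul]
    rw [Prod.ext_iff, Prod.ext_iff]
    simp only [Prod.fst_sum, Prod.snd_sum, and_self]
  rw [h2] at h1
  exact h1

/-- one component is replaced -/
lemma ach_replace {k : ℕ} (r p e c : Fin k → ℝ) (hr : ∀ j, 0 ≤ r j) (hs : ∑ j, r j = 1)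
    (h : ∀ j, Ach (p j) (e j) (c j)) (i : Fin k) {dp de dc : ℝ}
    (h' : Ach (p i + dp) (e i + de) (c i + dc)) :
    Ach (∑ j, r j * p j + r i * dp) (∑ j, r j * e j + r i * de) (∑ j, r j * c j + r i * dc) := by
  have key : ∀ (f : Fin k → ℝ) (d : ℝ), ∑ j, r j * (f j + if j = i then d else 0) =
      ∑ j, r j * f j + r i * d := by
    intro f d
    simp only [mul_add, Finset.sum_add_distrib, mul_ite, mul_zero, Finset.sum_ite_eq',
      Finset.mem_univ, if_true]
  rw [← key p dp, ← key e de, ← key c dc]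
  refine ach_sum r _ _ _ hr hs fun j => ?_
  by_cases hj : j = i
  · subst hj
    simp only [if_true]
    exact h'
  · simp only [if_neg hj, add_zero]
    exact h j

/-- Case A: some component is not pure -/
lemma improve_a {k : ℕ} (r w l : Fin k → ℝ) (hr : ∀ j, 0 < r j) (hs : ∑ j, r j = 1)
    (hl : ∀ j, 0 ≤ l j ∧ l j ≤ 1 / 2 ∧ l j ≤ w j ∧ w j ≤ 1 - l j) {ω δ : ℝ}
    (hδ : 0 < δ) (hδ2 : δ < 2 * (ω * (1 - ω))) (hω0 : 0 < ω) (hω1 : ω < 1)
    (hm : ∑ j, r j * w j = ω) (hE : ∑ j, r j * EJ (w j) (l j) ≤ δ) (i : Fin k) (hi : 0 < l i) :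
    ∃ c, ∑ j, r j * (Real.binEntropy (w j) - Real.binEntropy (l j)) < c ∧ Ach ω δ c := by
  obtain ⟨c, hc⟩ : ∃ c, c = ∑ j, r j * (Real.binEntropy (w j) - Real.binEntropy (l j)) := ⟨_, rfl⟩
  rw [← hc]
  obtain ⟨-, hi1, hi2, hi3⟩ := hl i
  have hri := hr i
  have hr1 : r i ≤ 1 := by
    rw [← hs]
    exact Finset.single_le_sum (fun j _ => (hr j).le) (Finset.mem_univ i)
  obtain ⟨L, hL⟩ : ∃ L, L = r i * (l i * (1 - l i)) := ⟨_, rfl⟩
  have hL0 : 0 < L := by
    rw [hL]
    exact mul_pos hri (mul_pos hi (by linarith))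
  obtain ⟨M, hM⟩ : ∃ M, M = 16 * |c| / (δ * L) := ⟨_, rfl⟩
  have hM0 : 0 ≤ M := by rw [hM]; positivity
  have hw0 : 0 < 1 - w i := by linarith
  obtain ⟨t, ht⟩ : ∃ t, t = min (1 / 2) (min (δ / 8) ((1 - w i) / 2 * Real.exp (-(M + 1)))) :=
    ⟨_, rfl⟩
  have ht0 : 0 < t := by
    rw [ht]
    exact lt_min (by norm_num) (lt_min (by linarith) (by positivity))
  have ht1 : t ≤ 1 / 2 := ht ▸ min_le_left _ _
  have ht2 : t ≤ δ / 8 := ht ▸ le_trans (min_le_right _ _) (min_le_left _ _)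
  have ht3 : t ≤ (1 - w i) / 2 * Real.exp (-(M + 1)) :=
    ht ▸ le_trans (min_le_right _ _) (min_le_right _ _)
  have hexp1 : Real.exp (-(M + 1)) ≤ 1 := Real.exp_le_one_iff.mpr (by linarith)
  have ht4 : t ≤ (1 - t) * (1 - w i) := by
    have h1 : (1 - w i) / 2 * Real.exp (-(M + 1)) ≤ (1 - w i) / 2 := by nlinarith
    nlinarith
  have hlog : M + 1 ≤ Real.log ((1 - t) * (1 - w i) / t) := by
    rw [Real.le_log_iff_exp_le (by
      have : 0 < (1 - t) * (1 - w i) := lt_of_lt_of_le ht0 ht4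
      positivity)]
    rw [le_div_iff₀ ht0]
    have h1 : Real.exp (M + 1) * t ≤ Real.exp (M + 1) * ((1 - w i) / 2 * Real.exp (-(M + 1))) :=
      mul_le_mul_of_nonneg_left ht3 (Real.exp_pos _).le
    have h2 : Real.exp (M + 1) * ((1 - w i) / 2 * Real.exp (-(M + 1))) = (1 - w i) / 2 := by
      rw [Real.exp_neg]
      have := (Real.exp_pos (M + 1)).ne'
      field_simp
    rw [h2] at h1
    nlinarith
  have htw := ach_twist hi hi1 hi2 hi3 ht0 (by linarith) ht4
  have h1 := ach_replace r w (fun j => EJ (w j) (l j))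
    (fun j => Real.binEntropy (w j) - Real.binEntropy (l j)) (fun j => (hr j).le) hs
    (fun j => ach_base (hl j).1 (hl j).2.1 (hl j).2.2.1 (hl j).2.2.2) i
    (dp := t * (1 - 2 * w i)) (de := 2 * t)
    (dc := t * (1 - t) * (l i * (1 - l i)) * Real.log ((1 - t) * (1 - w i) / t)) htw
  rw [hm, ← hc] at h1
  -- the second mixture
  obtain ⟨κ, hκ⟩ : ∃ κ, κ = 4 * t / δ := ⟨_, rfl⟩
  have hκδ : κ * δ = 4 * t := by rw [hκ]; field_simp
  have hκ0 : 0 < κ := by rw [hκ]; positivity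
  have hκ1 : κ ≤ 1 / 2 := by rw [hκ, div_le_iff₀ hδ]; linarith
  obtain ⟨p', hp'⟩ : ∃ p', p' = ω - (1 - κ) * (r i * (1 - 2 * w i)) * (δ / 4) := ⟨_, rfl⟩
  have habs : |(1 - κ) * (r i * (1 - 2 * w i))| ≤ 1 := by
    rw [abs_mul, abs_mul]
    have a1 : |1 - κ| ≤ 1 := by rw [abs_le]; constructor <;> linarith
    have a2 : |r i| ≤ 1 := by rw [abs_le]; constructor <;> linarith
    have a3 : |1 - 2 * w i| ≤ 1 := by rw [abs_le]; constructor <;> linarith
    have a4 : |r i| * |1 - 2 * w i| ≤ 1 := by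
      calc |r i| * |1 - 2 * w i| ≤ 1 * 1 := mul_le_mul a2 a3 (abs_nonneg _) (by norm_num)
        _ = 1 := one_mul 1
    calc |1 - κ| * (|r i| * |1 - 2 * w i|) ≤ 1 * 1 :=
          mul_le_mul a1 a4 (by positivity) (by norm_num)
      _ = 1 := one_mul 1
  have hab := abs_le.1 habs
  have hω2 : ω * (1 - ω) ≤ ω := by nlinarith
  have hω3 : ω * (1 - ω) ≤ 1 - ω := by nlinarith
  have hp0 : 0 ≤ p' := by
    rw [hp']
    have : (1 - κ) * (r i * (1 - 2 * w i)) * (δ / 4) ≤ 1 * (δ / 4) :=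
      mul_le_mul_of_nonneg_right hab.2 (by linarith)
    linarith
  have hp1 : p' ≤ 1 := by
    rw [hp']
    have : -1 * (δ / 4) ≤ (1 - κ) * (r i * (1 - 2 * w i)) * (δ / 4) :=
      mul_le_mul_of_nonneg_right hab.1 (by linarith)
    linarith
  have h2 := h1.mix (ach_triv hp0 hp1) (r := 1 - κ) (by linarith) (by linarith)
  obtain ⟨g, hg⟩ : ∃ g, g = r i * (t * (1 - t) * (l i * (1 - l i)) *
    Real.log ((1 - t) * (1 - w i) / t)) := ⟨_, rfl⟩
  rw [← hg] at h2
  have hgl : t * L * (M + 1) / 2 ≤ g := by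
    have e1 : t * L / 2 ≤ t * (1 - t) * L := by
      have : 0 ≤ t * L * (1 / 2 - t) := by
        apply mul_nonneg (by positivity); linarith
      nlinarith
    calc t * L * (M + 1) / 2 = (t * L / 2) * (M + 1) := by ring
      _ ≤ (t * (1 - t) * L) * Real.log ((1 - t) * (1 - w i) / t) :=
        mul_le_mul e1 hlog (by positivity) (le_trans (by positivity) e1)
      _ = g := by rw [hg, hL]; ring
  have hg0 : 0 ≤ g := le_trans (by positivity) hgl
  refine ⟨(1 - κ) * (c + g) + (1 - (1 - κ)) * 0, ?_, ?_⟩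
  · have g1 : κ * c ≤ 4 * t * |c| / δ := by
      have h3 : c ≤ |c| := le_abs_self c
      calc κ * c ≤ κ * |c| := mul_le_mul_of_nonneg_left h3 hκ0.le
        _ = 4 * t * |c| / δ := by rw [hκ]; ring
    have g2 : (1 / 2) * g ≤ (1 - κ) * g := mul_le_mul_of_nonneg_right (by linarith) hg0
    have g3 : L * M = 16 * |c| / δ := by rw [hM]; field_simp
    have g4 : (1 / 2) * (t * L * (M + 1) / 2) = 4 * t * |c| / δ + t * L / 4 := by
      have : (1 / 2) * (t * L * (M + 1) / 2) = t * (L * M) / 4 + t * L / 4 := by ring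
      rw [this, g3]
      ring
    have g5 : 0 < t * L / 4 := by positivity
    nlinarith
  · have e1 : (1 - κ) * (ω + r i * (t * (1 - 2 * w i))) + (1 - (1 - κ)) * p' = ω := by
      rw [hp']
      linear_combination (-(1 - κ) * (r i * (1 - 2 * w i)) / 4) * hκδ
    rw [e1] at h2
    refine h2.mono ?_ le_rfl
    have e2 : (1 - κ) * (∑ j, r j * EJ (w j) (l j) + r i * (2 * t)) + (1 - (1 - κ)) * 0 ≤
        (1 - κ) * (δ + 2 * t) := by
      have h3 : ∑ j, r j * EJ (w j) (l j) + r i * (2 * t) ≤ δ + 2 * t := by nlinarith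
      have h4 := mul_le_mul_of_nonneg_left h3 (show 0 ≤ 1 - κ by linarith)
      linarith
    refine e2.trans ?_
    have h5 : 0 < κ * t := by positivity
    nlinarith

/-- entropies of small probabilities -/
lemma small_ent {a b : ℝ} (ha : 0 < a) (hb : 0 < b) : ∃ t : ℝ, 0 < t ∧ t ≤ 1 / 2 ∧ t ≤ b ∧
    Real.binEntropy t < a * √(t * (1 - t)) := by
  obtain ⟨y, hy⟩ : ∃ y, y = min (1 / 2) (min b (a / 11)) := ⟨_, rfl⟩
  have hy0 : 0 < y := by rw [hy]; exact lt_min (by norm_num) (lt_min hb (by positivity))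
  have hy1 : y ≤ 1 / 2 := hy ▸ min_le_left _ _
  have hy2 : y ≤ b := hy ▸ (min_le_right _ _).trans (min_le_left _ _)
  have hy3 : y ≤ a / 11 := hy ▸ (min_le_right _ _).trans (min_le_right _ _)
  have h4y : y ^ 4 ≤ y := by
    calc y ^ 4 ≤ y ^ 1 := pow_le_pow_of_le_one hy0.le (by linarith) (by norm_num)
      _ = y := pow_one y
  have ht0 : 0 < y ^ 4 := by positivity
  refine ⟨y ^ 4, ht0, by linarith, by linarith, ?_⟩
  have h1 : Real.negMulLog (y ^ 4) ≤ 4 * y ^ 3 := by
    unfold Real.negMulLog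
    rw [Real.log_pow]
    have h2 : Real.log (1 / y) ≤ 1 / y - 1 := Real.log_le_sub_one_of_pos (by positivity)
    rw [Real.log_div one_ne_zero hy0.ne', Real.log_one, zero_sub] at h2
    have h3 : y * (-Real.log y) ≤ y * (1 / y - 1) := mul_le_mul_of_nonneg_left h2 hy0.le
    have h4 : y * (1 / y - 1) = 1 - y := by field_simp
    rw [h4] at h3
    have h5 : 0 < y ^ 3 := by positivity
    push_cast
    have h6 : -y ^ 4 * (4 * Real.log y) = 4 * y ^ 3 * (y * (-Real.log y)) := by ring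
    rw [h6]
    nlinarith
  have h1t : 0 < 1 - y ^ 4 := by linarith
  have h2 : Real.negMulLog (1 - y ^ 4) ≤ y ^ 4 := by
    unfold Real.negMulLog
    have h3 : Real.log (1 / (1 - y ^ 4)) ≤ 1 / (1 - y ^ 4) - 1 :=
      Real.log_le_sub_one_of_pos (by positivity)
    rw [Real.log_div one_ne_zero h1t.ne', Real.log_one, zero_sub] at h3
    have h4 := mul_le_mul_of_nonneg_left h3 h1t.le
    have h5 : (1 - y ^ 4) * (1 / (1 - y ^ 4) - 1) = y ^ 4 := by
      field_simp
      ring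
    rw [h5] at h4
    linarith
  have h3 : Real.binEntropy (y ^ 4) ≤ 5 * y ^ 3 := by
    rw [Real.binEntropy_eq_negMulLog_add_negMulLog_one_sub]
    have : y ^ 4 ≤ y ^ 3 := pow_le_pow_of_le_one hy0.le (by linarith) (by norm_num)
    linarith
  have h4 : y ^ 2 / 2 ≤ √(y ^ 4 * (1 - y ^ 4)) := by
    apply Real.le_sqrt_of_sq_le
    have : 1 / 4 ≤ 1 - y ^ 4 := by linarith
    have h5 : (y ^ 2 / 2) ^ 2 = y ^ 4 * (1 / 4) := by ring
    rw [h5]
    exact mul_le_mul_of_nonneg_left this ht0.le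
  calc Real.binEntropy (y ^ 4) ≤ 5 * y ^ 3 := h3
    _ < a * (y ^ 2 / 2) := by
      have h5 : 0 < y ^ 2 := by positivity
      have h6 : 5 * y < a / 2 := by linarith
      calc 5 * y ^ 3 = 5 * y * y ^ 2 := by ring
        _ < a / 2 * y ^ 2 := mul_lt_mul_of_pos_right h6 h5
        _ = a * (y ^ 2 / 2) := by ring
    _ ≤ a * √(y ^ 4 * (1 - y ^ 4)) := mul_le_mul_of_nonneg_left h4 ha.le

lemma EJ_zero (w : ℝ) : EJ w 0 = 2 * (w * (1 - w)) := by
  unfold EJ
  simp

/-- using slack in the energy -/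
lemma use_slack {ω δ e c : ℝ} (hω0 : 0 ≤ ω) (hω1 : ω ≤ 1) (hδ2 : δ < 2 * (ω * (1 - ω)))
    (he : e ≤ δ) (h : Ach ω e c) (hc : c ≤ Real.binEntropy ω) :
    Ach ω δ (c + (δ - e) * (Real.binEntropy ω - c)) := by
  have h1 : Ach ω (EJ ω 0) (Real.binEntropy ω - Real.binEntropy 0) :=
    ach_base le_rfl (by norm_num) hω0 (by linarith)
  rw [EJ_zero, Real.binEntropy_zero, sub_zero] at h1
  obtain ⟨κ, hκ⟩ : ∃ κ, κ = (δ - e) / (2 * (ω * (1 - ω)) - e) := ⟨_, rfl⟩
  have hden : 0 < 2 * (ω * (1 - ω)) - e := by linarith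
  have hκ0 : 0 ≤ κ := by rw [hκ]; exact div_nonneg (by linarith) hden.le
  have hκ1 : κ ≤ 1 := by rw [hκ, div_le_one hden]; linarith
  have h2 := h1.mix h hκ0 hκ1
  have e1 : κ * (2 * (ω * (1 - ω)) - e) = δ - e := by
    rw [hκ]; exact div_mul_cancel₀ _ hden.ne'
  have e2 : κ * ω + (1 - κ) * ω = ω := by ring
  rw [e2] at h2
  refine h2.mono (by linarith) ?_
  by_cases hee : 0 ≤ e
  · have h3 : δ - e ≤ κ := by
      rw [← e1]
      have : 2 * (ω * (1 - ω)) - e ≤ 1 := by nlinarith [sq_nonneg (ω - 1 / 2)]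
      nlinarith
    nlinarith
  · exfalso
    obtain ⟨Ω, i1, i2, s, -, h4, -⟩ := h
    have h5 : 0 ≤ Pool.Agent.H235R2.QLP.EH s := by
      rw [← Pool.Agent.H235R2.QLP.E_eq]
      exact Pool.Agent.H390R2.LP.site_E_nonneg s _
    linarith

/-- **Every finite mixture of the classical data is improved.** -/
theorem improve {k : ℕ} (r w l : Fin k → ℝ) (hr : ∀ j, 0 < r j) (hs : ∑ j, r j = 1)
    (hl : ∀ j, 0 ≤ l j ∧ l j ≤ 1 / 2 ∧ l j ≤ w j ∧ w j ≤ 1 - l j) {ω δ : ℝ}
    (hδ : 0 < δ) (hδ2 : δ < 2 * (ω * (1 - ω))) (hω0 : 0 < ω) (hω1 : ω < 1)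
    (hm : ∑ j, r j * w j = ω) (hE : ∑ j, r j * EJ (w j) (l j) ≤ δ) :
    ∃ c, ∑ j, r j * (Real.binEntropy (w j) - Real.binEntropy (l j)) < c ∧ Ach ω δ c := by
  by_cases hA : ∃ i, 0 < l i
  · obtain ⟨i, hi⟩ := hA
    exact improve_a r w l hr hs hl hδ hδ2 hω0 hω1 hm hE i hi
  push Not at hA
  have hl0 : ∀ j, l j = 0 := fun j => le_antisymm (hA j) (hl j).1
  simp only [hl0, Real.binEntropy_zero, sub_zero, EJ_zero] at hE ⊢
  have hw : ∀ j, 0 ≤ w j ∧ w j ≤ 1 := fun j => by
    have := hl j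
    rw [hl0 j] at this
    exact ⟨this.2.2.1, by linarith [this.2.2.2]⟩
  obtain ⟨c, hc⟩ : ∃ c, c = ∑ j, r j * Real.binEntropy (w j) := ⟨_, rfl⟩
  obtain ⟨e, he⟩ : ∃ e, e = ∑ j, r j * (2 * (w j * (1 - w j))) := ⟨_, rfl⟩
  rw [← hc]
  rw [← he] at hE
  have hall : ∀ j, Ach (w j) (2 * (w j * (1 - w j))) (Real.binEntropy (w j)) := by
    intro j
    have h1 : Ach (w j) (EJ (w j) 0) (Real.binEntropy (w j) - Real.binEntropy 0) :=
      ach_base le_rfl (by norm_num) (hw j).1 (by linarith [(hw j).2])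
    rwa [EJ_zero, Real.binEntropy_zero, sub_zero] at h1
  have hAch : Ach ω e c := by
    have := ach_sum r w _ _ (fun j => (hr j).le) hs hall
    rwa [hm, ← hc, ← he] at this
  -- strict concavity
  have hcH : c < Real.binEntropy ω := by
    by_cases hall2 : ∀ j, w j = ω
    · exfalso
      have : e = 2 * (ω * (1 - ω)) := by
        rw [he]
        simp only [hall2]
        rw [← Finset.sum_mul, hs, one_mul]
      linarith
    · push Not at hall2
      obtain ⟨j, hj⟩ := hall2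
      have hex : ∃ j' ∈ (univ : Finset (Fin k)), ∃ i' ∈ (univ : Finset (Fin k)), w j' ≠ w i' := by
        by_contra hcon
        push Not at hcon
        apply hj
        rw [← hm]
        have : ∀ i, r i * w i = r i * w j := fun i => by
          rw [hcon i (Finset.mem_univ _) j (Finset.mem_univ _)]
        rw [Finset.sum_congr rfl fun i _ => this i, ← Finset.sum_mul, hs, one_mul]
      have h1 := Real.strictConcave_binEntropy.lt_map_sum (t := univ) (w := r) (p := w)
        (fun i _ => hr i) hs (fun i _ => ⟨(hw i).1, (hw i).2⟩) hex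
      simp only [smul_eq_mul] at h1
      rw [hm, ← hc] at h1
      exact h1
  rcases hE.lt_or_eq with hlt | heq
  · refine ⟨_, ?_, use_slack hω0.le hω1.le hδ2 hE hAch hcH.le⟩
    have : 0 < (δ - e) * (Real.binEntropy ω - c) := mul_pos (by linarith) (by linarith)
    linarith
  · -- some component is not trivial
    obtain ⟨i, hi⟩ : ∃ i, 0 < w i * (1 - w i) := by
      by_contra hcon
      push Not at hcon
      have h1 : e ≤ 0 := by
        rw [he]
        refine Finset.sum_nonpos fun j _ => ?_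
        have := hcon j
        have := hr j
        nlinarith
      linarith
    have hwi0 : 0 < w i := by
      rcases (hw i).1.eq_or_lt with h | h
      · rw [← h] at hi
        simp at hi
      · exact h
    have hwi1 : 0 < 1 - w i := by
      rcases (hw i).2.eq_or_lt with h | h
      · rw [h] at hi
        simp at hi
      · linarith
    obtain ⟨G, hG⟩ : ∃ G, G = Real.binEntropy ω - c := ⟨_, rfl⟩
    have hG0 : 0 < G := by rw [hG]; linarith
    obtain ⟨t, ht0, ht1, ht2, ht3⟩ := small_ent (a := 2 * (w i * (1 - w i)) * G)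
      (b := min (w i) (1 - w i)) (by positivity) (lt_min hwi0 hwi1)
    have hb1 : t ≤ w i := ht2.trans (min_le_left _ _)
    have hb2 : w i ≤ 1 - t := by linarith [ht2.trans (min_le_right _ _)]
    have h1 := ach_base ht0.le ht1 hb1 hb2
    obtain ⟨s, hsd⟩ : ∃ s, s = √(t * (1 - t)) := ⟨_, rfl⟩
    have hs0 : 0 ≤ s := by rw [hsd]; exact Real.sqrt_nonneg _
    have hs2 : s ^ 2 = t * (1 - t) := by
      rw [hsd, Real.sq_sqrt (mul_nonneg ht0.le (by linarith))]
    have hs1 : s ≤ 1 / 2 := by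
      have : s ^ 2 ≤ (1 / 2) ^ 2 := by
        rw [hs2]
        nlinarith [sq_nonneg (t - 1 / 2)]
      exact (pow_le_pow_iff_left₀ hs0 (by norm_num) two_ne_zero).1 this
    have hdrop : EJ (w i) t ≤ 2 * (w i * (1 - w i)) - 2 * (w i * (1 - w i)) * s := by
      unfold EJ
      rw [← hsd, div_le_iff₀ (by positivity), ← hs2]
      nlinarith [mul_nonneg hi.le hs0, mul_nonneg hi.le (mul_nonneg hs0 (sub_nonneg.2 hs1)),
        sq_nonneg s]
    have h2 := ach_replace r w _ _ (fun j => (hr j).le) hs hall i (dp := 0)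
      (de := -(2 * (w i * (1 - w i)) * s)) (dc := -Real.binEntropy t)
      (by
        rw [add_zero]
        exact h1.mono (by linarith) (by linarith))
    rw [mul_zero, add_zero, hm, ← hc, ← he] at h2
    have hHt : 0 ≤ Real.binEntropy t := Real.binEntropy_nonneg ht0.le (by linarith)
    have hri := hr i
    have h3 := use_slack hω0.le hω1.le hδ2 (by
      have : 0 ≤ r i * (2 * (w i * (1 - w i)) * s) := by positivity
      linarith) h2 (by nlinarith)
    refine ⟨_, ?_, h3⟩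
    have h4 : δ - (e + r i * -(2 * (w i * (1 - w i)) * s)) = r i * (2 * (w i * (1 - w i)) * s) := by
      rw [heq]
      ring
    rw [h4]
    rw [← hsd] at ht3
    have h5 : G ≤ Real.binEntropy ω - (c + r i * -Real.binEntropy t) := by
      rw [hG]
      nlinarith
    have h6 : r i * (2 * (w i * (1 - w i)) * s) * G ≤ r i * (2 * (w i * (1 - w i)) * s) *
        (Real.binEntropy ω - (c + r i * -Real.binEntropy t)) :=
      mul_le_mul_of_nonneg_left h5 (by positivity)
    have h7 : r i * Real.binEntropy t < r i * (2 * (w i * (1 - w i)) * G * s) :=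
      mul_lt_mul_of_pos_left ht3 hri
    nlinarith

end Pool.Agent.K9h1.CW
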